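import Pool.Agent.CBG.StmtsA

/-!
# Squad CBG, row CHX: vectors representing linear functionals, Christoffel vectors
-/

set_option autoImplicit false
set_option maxSynthPendingDepth 3

namespace Pool.Agent.CBG.H74

open Pool.Agent.CBG

theorem rep_unique {n : ℕ} (B : Bil (Ed n)) (hB : ∀ v : Ed n, v ≠ 0 → 0 < B v v) (a a' : Ed n)
    (h : ∀ z, B a z = B a' z) : a = a' := by
  by_contra hne
  have h1 : a - a' ≠ 0 := sub_ne_zero.2 hne
  have h2 := hB _ h1
  have h3 : B (a - a') (a - a') = B a (a - a') - B a' (a - a') := by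
    have h4 : B (a - a') = B a - B a' := map_sub B a a'
    rw [h4]
    rfl
  rw [h3, h (a - a'), sub_self] at h2
  exact lt_irrefl _ h2

theorem rep_exists {n : ℕ} (B : Bil (Ed n)) (hB : ∀ v : Ed n, v ≠ 0 → 0 < B v v)
    (φ : Ed n →ₗ[ℝ] ℝ) : ∃ a, ∀ z, B a z = φ z := by
  let T : Ed n →ₗ[ℝ] (Ed n →ₗ[ℝ] ℝ) :=
    { toFun := fun a => (B a : Ed n →ₗ[ℝ] ℝ)
      map_add' := fun a b => by
        ext z
        simp
      map_smul' := fun c a => by
        ext z
        simp }
  have hT : Function.Injective T := by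
    intro a a' h
    refine rep_unique B hB a a' fun z => ?_
    exact LinearMap.congr_fun h z
  have hs : Function.Surjective T :=
    (LinearMap.injective_iff_surjective_of_finrank_eq_finrank
      (Subspace.dual_finrank_eq (K := ℝ) (V := Ed n)).symm).1 hT
  obtain ⟨a, ha⟩ := hs φ
  exact ⟨a, fun z => LinearMap.congr_fun ha z⟩

theorem chx : ChxStmt := by
  refine ⟨fun n B hB => ⟨rep_exists B hB, rep_unique B hB⟩, ?_⟩
  intro n G x hG v w
  constructor
  · let φ : Ed n →ₗ[ℝ] ℝ :=
      { toFun := fun z => chr G x v w z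
        map_add' := fun a b => by
          simp only [chr, map_add, _root_.add_apply]
          ring
        map_smul' := fun c a => by
          simp only [chr, map_smul, _root_.smul_apply, smul_eq_mul, RingHom.id_apply]
          ring }
    obtain ⟨a, ha⟩ := rep_exists (G x) hG φ
    exact ⟨a, ha⟩
  · intro a a' h h'
    exact rep_unique (G x) hG a a' fun z => (h z).trans (h' z).symm

end Pool.Agent.CBG.H74
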